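import Pool.Agent.H868R3.TBMain

/-!
General lemmas on locally nilpotent derivations of subalgebras of `R[a]` and of `R[a][u]`
(from `Pool.Agent.Results.MP_eab3e1_ag.ImageIdealTooSmall`).
-/

set_option autoImplicit false
set_option linter.unusedSectionVars false
set_option linter.unusedSimpArgs false

open Polynomial

namespace Pool.Agent.Q85.LND

open Pool.Agent.H868R3

universe u

/-- The ideal of `A` which is generated by the images of all locally nilpotent derivations. -/
def imageIdeal (K : Type u) (A : Type u) [Field K] [CommRing A] [Algebra K A] : Ideal A :=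
  Ideal.span {b | ∃ D : Derivation K A A, IsLND D ∧ ∃ a, D a = b}

section general

variable {K B B' : Type u} [Field K] [CommRing B] [CommRing B'] [Algebra K B] [Algebra K B']

/-- restriction of a derivation along an injective homomorphism, auxiliary form -/
noncomputable def resAux (ι : B →ₐ[K] B') (hι : Function.Injective ι) (D : Derivation K B' B')
    (fn : B → B) (h : ∀ b, ι (fn b) = D (ι b)) : Derivation K B B :=
  Derivation.mk'
    { toFun := fn
      map_add' := by
        intro a b
        apply hι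
        rw [h, map_add, map_add, map_add, h, h]
      map_smul' := by
        intro c a
        apply hι
        rw [h, map_smul, Derivation.map_smul, RingHom.id_apply, map_smul, h] }
    (by
      intro a b
      apply hι
      change ι (fn (a * b)) = ι (a * fn b + b * fn a)
      rw [h, map_add, map_mul ι a (fn b), map_mul ι b (fn a), map_mul ι a b, h, h,
        Derivation.leibniz]
      rfl)

/-- restriction of a derivation along an injective homomorphism -/
noncomputable def res (ι : B →ₐ[K] B') (hι : Function.Injective ι) (D : Derivation K B' B')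
    (h : ∀ b, ∃ c, ι c = D (ι b)) : Derivation K B B :=
  resAux ι hι D (fun b => (h b).choose) fun b => (h b).choose_spec

lemma res_spec (ι : B →ₐ[K] B') (hι : Function.Injective ι) (D : Derivation K B' B')
    (h : ∀ b, ∃ c, ι c = D (ι b)) (b : B) : ι (res ι hι D h b) = D (ι b) :=
  (h b).choose_spec

lemma res_iter (ι : B →ₐ[K] B') (hι : Function.Injective ι) (D : Derivation K B' B')
    (h : ∀ b, ∃ c, ι c = D (ι b)) (n : ℕ) (b : B) :
    ι ((⇑(res ι hι D h))^[n] b) = (⇑D)^[n] (ι b) := by
  induction n with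
  | zero => rfl
  | succ n ih => rw [Function.iterate_succ_apply', res_spec, ih, Function.iterate_succ_apply']

lemma res_lnd (ι : B →ₐ[K] B') (hι : Function.Injective ι) (D : Derivation K B' B')
    (h : ∀ b, ∃ c, ι c = D (ι b)) (hD : IsLND D) : IsLND (res ι hι D h) := by
  intro b
  obtain ⟨n, hn⟩ := hD (ι b)
  exact ⟨n, hι (by rw [res_iter, hn, map_zero])⟩

lemma mem_HDStar_of (ι : B →ₐ[K] B') (hι : Function.Injective ι) (D : Derivation K B' B')
    (h : ∀ b, ∃ c, ι c = D (ι b)) (hD : IsLND D) (s F : B) (hs : D (ι s) = 1)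
    (hF : D (ι F) = 0) : F ∈ HDStar K B :=
  Algebra.subset_adjoin ⟨res ι hι D h, res_lnd ι hι D h hD,
    ⟨s, hι (by rw [res_spec, hs, map_one])⟩, hι (by rw [res_spec, hF, map_zero])⟩

/-- iterated Leibniz formula -/
theorem iterate_leibniz (D : Derivation K B B) (n : ℕ) (a b : B) :
    D^[n] (a * b) = ∑ ij ∈ Finset.HasAntidiagonal.antidiagonal n,
      (n.choose ij.1 : B) * (D^[ij.1] a * D^[ij.2] b) := by
  induction n with
  | zero => simp
  | succ n ih =>
    rw [Finset.sum_antidiagonal_choose_succ_mul (fun i j => D^[i] a * D^[j] b) n,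
      Function.iterate_succ_apply', ih, map_sum, ← Finset.sum_add_distrib]
    refine Finset.sum_congr rfl fun ij hij => ?_
    rw [Derivation.leibniz, Derivation.map_natCast, smul_zero, add_zero, Derivation.leibniz,
      Function.iterate_succ_apply', Function.iterate_succ_apply', smul_eq_mul, smul_eq_mul,
      smul_eq_mul, n.choose_symm_of_eq_add (Finset.HasAntidiagonal.mem_antidiagonal.1 hij).symm]
    ring

lemma iter_zero_of_le (D : Derivation K B B) {m n : ℕ} (h : m ≤ n) {a : B} (ha : D^[m] a = 0) :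
    D^[n] a = 0 := by
  obtain ⟨k, rfl⟩ := Nat.exists_eq_add_of_le h
  rw [add_comm, Function.iterate_add_apply, ha]
  exact iterate_map_zero _ _

/-- the elements on which a derivation is locally nilpotent form a subalgebra -/
def nilSub (D : Derivation K B B) : Subalgebra K B where
  carrier := {a | ∃ n : ℕ, D^[n] a = 0}
  mul_mem' := by
    rintro a b ⟨m, hm⟩ ⟨n, hn⟩
    refine ⟨m + n, ?_⟩
    rw [iterate_leibniz]
    apply Finset.sum_eq_zero
    rintro ⟨i, j⟩ hij
    have hij := Finset.HasAntidiagonal.mem_antidiagonal.1 hij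
    simp only at hij ⊢
    rcases Nat.lt_or_ge i m with h | h
    · rw [iter_zero_of_le D (show n ≤ j by omega) hn, mul_zero, mul_zero]
    · rw [iter_zero_of_le D h hm, zero_mul, mul_zero]
  add_mem' := by
    rintro a b ⟨m, hm⟩ ⟨n, hn⟩
    refine ⟨m + n, ?_⟩
    rw [iterate_map_add, iter_zero_of_le D (Nat.le_add_right m n) hm,
      iter_zero_of_le D (Nat.le_add_left n m) hn, add_zero]
  algebraMap_mem' := by
    intro r
    exact ⟨1, by simp⟩

/-- a locally nilpotent derivation kills the units -/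
lemma unit_killed [IsDomain B] [CharZero K] (D : Derivation K B B) (hD : IsLND D) {v w : B}
    (hvw : v * w = 1) : D v = 0 := by
  classical
  by_contra hv
  have hv0 : v ≠ 0 := by rintro rfl; simp at hv
  have hw0 : w ≠ 0 := by rintro rfl; simp at hvw
  have key : ∀ a : B, a ≠ 0 → ∃ m : ℕ, D^[m] a ≠ 0 ∧ D^[m + 1] a = 0 := by
    intro a ha
    have hex := hD a
    have h1 := Nat.find_spec hex
    have h2 : Nat.find hex ≠ 0 := by
      intro h0
      rw [h0] at h1
      exact ha h1
    obtain ⟨k, hk⟩ := Nat.exists_eq_succ_of_ne_zero h2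
    refine ⟨k, ?_, ?_⟩
    · exact Nat.find_min hex (by omega)
    · rw [← Nat.succ_eq_add_one, ← hk]; exact h1
  obtain ⟨m, hm1, hm2⟩ := key v hv0
  obtain ⟨n, hn1, hn2⟩ := key w hw0
  have hm : 1 ≤ m := by
    by_contra h
    have : m = 0 := by omega
    subst this
    exact hv hm2
  have h1 : D^[m + n] (v * w) = ((m + n).choose m : B) * (D^[m] v * D^[n] w) := by
    rw [iterate_leibniz]
    apply Finset.sum_eq_single (m, n)
    · rintro ⟨i, j⟩ hij hne
      have hij := Finset.HasAntidiagonal.mem_antidiagonal.1 hij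
      simp only at hij ⊢
      rcases Nat.lt_trichotomy i m with h | h | h
      · rw [iter_zero_of_le D (show n + 1 ≤ j by omega) hn2, mul_zero, mul_zero]
      · exfalso
        apply hne
        rw [Prod.mk.injEq]
        omega
      · rw [iter_zero_of_le D (show m + 1 ≤ i by omega) hm2, zero_mul, mul_zero]
    · intro h
      exact absurd (Finset.HasAntidiagonal.mem_antidiagonal.2 (show (m, n).1 + (m, n).2 = m + n from rfl)) h
  have : CharZero B := charZero_of_injective_algebraMap (algebraMap K B).injective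
  rw [hvw] at h1
  have h2 : D^[m + n] (1 : B) = 0 :=
    iter_zero_of_le D (show 1 ≤ m + n by omega) (by simp)
  rw [h2] at h1
  have h3 : (((m + n).choose m : ℕ) : B) ≠ 0 :=
    Nat.cast_ne_zero.mpr (Nat.choose_pos (Nat.le_add_right m n)).ne'
  exact (mul_ne_zero h3 (mul_ne_zero hm1 hn1)) h1.symm

end general

section deriv

variable {K R : Type u} [Field K] [CommRing R] [Algebra K R]

/-- `∂/∂a` on `R[a]` -/
noncomputable def da : Derivation K R[X] R[X] :=
  (Polynomial.derivative' : Derivation R R[X] R[X]).restrictScalars K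

/-- `∂/∂u` on `R[a][u]` -/
noncomputable def du : Derivation K R[X][X] R[X][X] :=
  (Polynomial.derivative' : Derivation R[X] R[X][X] R[X][X]).restrictScalars K

variable (x h : R)

/-- `β = a + u` -/
noncomputable def bt : R[X][X] := C X + X

/-- `Q = (x β - 1) (3 x β - 1)` -/
noncomputable def QQ : R[X][X] := (C (C x) * bt - 1) * (3 * (C (C x) * bt) - 1)

/-- `G = β (x β - 1) ^ 2` -/
noncomputable def GG : R[X][X] := bt * ((C (C x) * bt - 1) * (C (C x) * bt - 1))

variable (K) in
/-- `∂/∂u - h Q (∂/∂a - ∂/∂u)` -/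
noncomputable def DD : Derivation K R[X][X] R[X][X] :=
  du - (C (C h) * QQ x) • (mc da - du)

lemma da_apply (f : R[X]) : (da : Derivation K R[X] R[X]) f = derivative f := rfl

lemma mc_C (f : R[X]) : mc (da : Derivation K R[X] R[X]) (C f) = C (derivative f) := by
  rw [← monomial_zero_left, mc_monomial, da_apply, monomial_zero_left]

lemma mc_X : mc (da : Derivation K R[X] R[X]) (X : R[X][X]) = 0 := by
  rw [← monomial_one_one_eq_X, mc_monomial, da_apply, derivative_one, map_zero]

lemma du_C (f : R[X]) : (du : Derivation K R[X][X] R[X][X]) (C f : R[X][X]) = 0 :=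
  derivative_C

lemma du_X : (du : Derivation K R[X][X] R[X][X]) (X : R[X][X]) = 1 := derivative_X

lemma DD_C (f : R[X]) : DD K x h (C f : R[X][X]) = - (C (C h) * QQ x * C (derivative f)) := by
  simp only [DD, Derivation.coe_sub, Pi.sub_apply, Derivation.coe_smul, Pi.smul_apply, mc_C, du_C,
    smul_eq_mul, sub_zero, zero_sub]

lemma DD_X : DD K x h (X : R[X][X]) = 1 + C (C h) * QQ x := by
  simp only [DD, Derivation.coe_sub, Pi.sub_apply, Derivation.coe_smul, Pi.smul_apply, mc_X, du_X,
    smul_eq_mul, sub_zero, zero_sub]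
  ring

lemma DD_CC (r : R) : DD K x h (C (C r) : R[X][X]) = 0 := by
  rw [DD_C, derivative_C, C_0, mul_zero, neg_zero]

lemma DD_CX : DD K x h (C X : R[X][X]) = - (C (C h) * QQ x) := by
  rw [DD_C, derivative_X, C_1, mul_one]

lemma DD_bt : DD K x h (bt : R[X][X]) = 1 := by
  rw [bt, map_add, DD_CX, DD_X]; ring

lemma DD_one : DD K x h (1 : R[X][X]) = 0 := Derivation.map_one_eq_zero _

lemma DD_GG : DD K x h (GG x : R[X][X]) = QQ x := by
  simp only [GG, Derivation.leibniz, map_sub, DD_bt, DD_CC, DD_one, smul_eq_mul, QQ]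
  ring

lemma der_three {B : Type u} [CommRing B] [Algebra K B] (D : Derivation K B B) :
    D (3 : B) = 0 := by
  have := D.map_natCast 3
  rwa [Nat.cast_ofNat] at this

lemma der_four {B : Type u} [CommRing B] [Algebra K B] (D : Derivation K B B) :
    D (4 : B) = 0 := by
  have := D.map_natCast 4
  rwa [Nat.cast_ofNat] at this

lemma der_six {B : Type u} [CommRing B] [Algebra K B] (D : Derivation K B B) :
    D (6 : B) = 0 := by
  have := D.map_natCast 6
  rwa [Nat.cast_ofNat] at this

lemma DD_QQ : DD K x h (QQ x : R[X][X]) = 6 * (C (C x) * C (C x)) * bt - 4 * C (C x) := by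
  have h3 : DD K x h (3 : R[X][X]) = 0 := der_three _
  simp only [QQ, Derivation.leibniz, map_sub, DD_bt, DD_CC, DD_one, smul_eq_mul, h3]
  ring

lemma DD_lnd : IsLND (DD K x h) := by
  have hCC : ∀ r : R, (C (C r) : R[X][X]) ∈ nilSub (DD K x h) := fun r => ⟨1, DD_CC x h r⟩
  have hCX : (C X : R[X][X]) ∈ nilSub (DD K x h) := by
    refine ⟨4, ?_⟩
    have h4 : DD K x h (4 : R[X][X]) = 0 := der_four _
    have h6 : DD K x h (6 : R[X][X]) = 0 := der_six _
    have e1 : DD K x h (DD K x h (C X)) =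
        - (C (C h) * (6 * (C (C x) * C (C x)) * bt - 4 * C (C x))) := by
      rw [DD_CX, map_neg, Derivation.leibniz, DD_CC, DD_QQ, smul_eq_mul, smul_zero, add_zero]
    have e2 : DD K x h (DD K x h (DD K x h (C X))) = - (C (C h) * (6 * (C (C x) * C (C x)))) := by
      rw [e1, map_neg, Derivation.leibniz, DD_CC, map_sub, Derivation.leibniz, Derivation.leibniz,
        Derivation.leibniz, Derivation.leibniz, DD_CC, DD_bt, h4, h6]
      simp only [smul_eq_mul, mul_zero, add_zero, sub_zero, mul_one]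
    have e3 : DD K x h (DD K x h (DD K x h (DD K x h (C X)))) = 0 := by
      rw [e2, map_neg, Derivation.leibniz, DD_CC, Derivation.leibniz, Derivation.leibniz, DD_CC,
        h6]
      simp only [smul_eq_mul, mul_zero, add_zero, neg_zero]
    exact e3
  have hbt : (bt : R[X][X]) ∈ nilSub (DD K x h) := by
    refine ⟨2, ?_⟩
    simp only [Function.iterate_succ, Function.iterate_zero, Function.comp_apply, id_eq, DD_bt,
      DD_one]
  have hX : (X : R[X][X]) ∈ nilSub (DD K x h) := by
    have : (X : R[X][X]) = bt - C X := by rw [bt]; ring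
    rw [this]
    exact (nilSub _).sub_mem hbt hCX
  have hC : ∀ f : R[X], (C f : R[X][X]) ∈ nilSub (DD K x h) := by
    intro f
    induction f using Polynomial.induction_on' with
    | add p q hp hq => rw [C_add]; exact (nilSub _).add_mem hp hq
    | monomial n r =>
      rw [← C_mul_X_pow_eq_monomial, C_mul, C_pow]
      exact (nilSub _).mul_mem (hCC r) ((nilSub _).pow_mem hCX n)
  intro F
  change F ∈ nilSub (DD K x h)
  induction F using Polynomial.induction_on' with
  | add p q hp hq => exact (nilSub _).add_mem hp hq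
  | monomial n f =>
    rw [← C_mul_X_pow_eq_monomial]
    exact (nilSub _).mul_mem (hC f) ((nilSub _).pow_mem hX n)

end deriv

section line

variable {K R : Type u} [Field K] [CommRing R] [Algebra K R]

/-- `S[u]` inside `R[a][u]` -/
noncomputable def LX (S : Subalgebra K R[X]) : Subalgebra K R[X][X] := (mapAlgHom S.val).range

variable {S A : Subalgebra K R[X]}

lemma mem_LX_of {G : R[X][X]} (h : ∀ n, G.coeff n ∈ S) : G ∈ LX S :=
  lift_exists _ _ h

lemma coeff_mem_of_LX {G : R[X][X]} (h : G ∈ LX S) (n : ℕ) :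
    G.coeff n ∈ S := by
  obtain ⟨F, rfl⟩ := h
  simp only [AlgHom.toRingHom_eq_coe, RingHom.coe_coe, coe_mapAlgHom, coeff_map]
  exact (F.coeff n).2

lemma C_mem_LX {f : R[X]} (hf : f ∈ S) : C f ∈ LX S :=
  ⟨C ⟨f, hf⟩, by simp⟩

lemma X_mem_LX : (X : R[X][X]) ∈ LX S := ⟨X, by simp⟩

lemma num_mem {B : Type u} [CommRing B] [Algebra K B] (T : Subalgebra K B) :
    (2 : B) ∈ T ∧ (3 : B) ∈ T := by
  constructor
  · have := T.natCast_mem 2
    rwa [Nat.cast_ofNat] at this
  · have := T.natCast_mem 3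
    rwa [Nat.cast_ofNat] at this

variable {x h : R}

lemma h_mul_mem_LX (hA : ∀ f ∈ S, C h * f ∈ A) {G : R[X][X]} (hG : G ∈ LX S) :
    C (C h) * G ∈ LX A := by
  apply mem_LX_of
  intro n
  rw [coeff_C_mul]
  exact hA _ (coeff_mem_of_LX hG n)

variable (hC : ∀ r, C r ∈ S) (hz : C x * X ∈ S) (hy : X * (C x * X - 1) ∈ S)

include hC hz in
lemma xbt_mem : C (C x) * bt ∈ LX S := by
  have : C (C x) * bt = C (C x * X) + C (C x) * X := by
    simp only [bt, C_mul]; ring
  rw [this]
  exact (LX S).add_mem (C_mem_LX hz) ((LX S).mul_mem (C_mem_LX (hC _)) X_mem_LX)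

include hC hz in
lemma xbt_sub_mem : C (C x) * bt - 1 ∈ LX S := (LX S).sub_mem (xbt_mem hC hz) (LX S).one_mem

include hC hz in
lemma QQ_mem : QQ x ∈ LX S :=
  (LX S).mul_mem (xbt_sub_mem hC hz)
    ((LX S).sub_mem ((LX S).mul_mem (num_mem _).2 (xbt_mem hC hz)) (LX S).one_mem)

include hC hz hy in
lemma GG_mem : GG x ∈ LX S := by
  have h1 : bt * (C (C x) * bt - 1) ∈ LX S := by
    have : bt * (C (C x) * bt - 1) = C (X * (C x * X - 1)) + 2 * C (C x * X) * X +
        C (C x) * X ^ 2 - X := by
      simp only [bt, C_mul, C_sub, C_1]; ring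
    rw [this]
    refine (LX S).sub_mem ((LX S).add_mem ((LX S).add_mem (C_mem_LX hy) ?_) ?_) X_mem_LX
    · exact (LX S).mul_mem ((LX S).mul_mem (num_mem _).1 (C_mem_LX hz)) X_mem_LX
    · exact (LX S).mul_mem (C_mem_LX (hC _)) ((LX S).pow_mem X_mem_LX 2)
  have h2 : GG x = bt * (C (C x) * bt - 1) * (C (C x) * bt - 1) := by
    rw [GG]; ring
  rw [h2]
  exact (LX S).mul_mem h1 (xbt_sub_mem hC hz)

include hC hz hy in
lemma abt_mem : C X * (C (C x) * bt - 1) ∈ LX S := by
  have : C X * (C (C x) * bt - 1) = C (X * (C x * X - 1)) + C (C x * X) * X := by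
    simp only [bt, C_mul, C_sub, C_1]; ring
  rw [this]
  exact (LX S).add_mem (C_mem_LX hy) ((LX S).mul_mem (C_mem_LX hz) X_mem_LX)

include hC hz in
lemma QQ_mul_z : QQ x * C (derivative (C x * X)) ∈ LX S := by
  have : derivative (C x * X) = C x := by simp
  rw [this]; exact (LX S).mul_mem (QQ_mem hC hz) (C_mem_LX (hC _))

include hC hz in
lemma QQ_mul_y : QQ x * C (derivative (X * (C x * X - 1))) ∈ LX S := by
  have : derivative (X * (C x * X - 1)) = 2 * (C x * X) - 1 := by
    simp only [derivative_mul, derivative_sub, derivative_X, derivative_C, derivative_one]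
    ring
  rw [this]
  refine (LX S).mul_mem (QQ_mem hC hz) (C_mem_LX ?_)
  exact S.sub_mem (S.mul_mem (num_mem _).1 hz) S.one_mem

include hC hz hy in
lemma QQ_mul_w : QQ x * C (derivative (X ^ 2 * (C x * X - 1))) ∈ LX S := by
  have h1 : derivative (X ^ 2 * (C x * X - 1)) = X * (3 * (C x * X) - 2) := by
    simp only [derivative_mul, derivative_sub, derivative_X, derivative_C,
      derivative_one, derivative_X_pow]
    simp only [Nat.cast_ofNat, map_ofNat]
    ring
  have h2 : QQ x * C (derivative (X ^ 2 * (C x * X - 1))) =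
      C (3 * (C x * X) - 2) * (3 * (C (C x) * bt) - 1) * (C X * (C (C x) * bt - 1)) := by
    rw [h1, QQ, C_mul]; ring
  rw [h2]
  refine (LX S).mul_mem ((LX S).mul_mem (C_mem_LX ?_) ?_) (abt_mem hC hz hy)
  · exact S.sub_mem (S.mul_mem (num_mem _).2 hz) (num_mem _).1
  · exact (LX S).sub_mem ((LX S).mul_mem (num_mem _).2 (xbt_mem hC hz)) (LX S).one_mem

include hC hz in
lemma DD_mem (hA : ∀ f ∈ S, C h * f ∈ A) (hAS : A ≤ S)
    (hder : ∀ f ∈ S, QQ x * C (derivative f) ∈ LX S) (F : A[X]) : ∃ G : A[X],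
    mapAlgHom A.val G = DD K x h (mapAlgHom A.val F) := by
  change DD K x h (mapAlgHom A.val F) ∈ LX A
  have hX : DD K x h X ∈ LX A := by
    rw [DD_X]
    exact (LX A).add_mem (LX A).one_mem (h_mul_mem_LX hA (QQ_mem hC hz))
  induction F using Polynomial.induction_on' with
  | add p q hp hq =>
    rw [map_add, map_add]
    exact (LX A).add_mem hp hq
  | monomial n f =>
    have h1 : mapAlgHom A.val (monomial n f) = C (f : R[X]) * X ^ n := by
      rw [coe_mapAlgHom, map_monomial, ← C_mul_X_pow_eq_monomial]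
      rfl
    rw [h1, Derivation.leibniz, Derivation.leibniz_pow]
    refine (LX A).add_mem ?_ ?_
    · rw [smul_eq_mul]
      refine (LX A).mul_mem (C_mem_LX f.2) ?_
      refine (LX A).nsmul_mem ?_ n
      rw [smul_eq_mul]
      exact (LX A).mul_mem ((LX A).pow_mem X_mem_LX _) hX
    · rw [smul_eq_mul, DD_C]
      refine (LX A).mul_mem ((LX A).pow_mem X_mem_LX _) ?_
      refine (LX A).neg_mem ?_
      rw [mul_assoc]
      exact h_mul_mem_LX hA (hder _ (hAS f.2))

include hC hz hy in
/-- the element of the modified Derksen invariant -/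
theorem exists_mem (hA : ∀ f ∈ S, C h * f ∈ A) (hAS : A ≤ S)
    (hder : ∀ f ∈ S, QQ x * C (derivative f) ∈ LX S) : ∃ F : A[X], F ∈ HDStar K A[X] ∧
    mapAlgHom A.val F =
      C (C h) * (C (X * (C x * X - 1)) + C (C h) * ((2 * C (C x * X) - 1) * GG x) +
        C (C x) * C (C h) * C (C h) * (GG x * GG x)) := by
  obtain ⟨s, hs⟩ : ∃ s : A[X], mapAlgHom A.val s = X - C (C h) * GG x :=
    show X - C (C h) * GG x ∈ LX A from
      (LX A).sub_mem X_mem_LX (h_mul_mem_LX hA (GG_mem hC hz hy))
  obtain ⟨F, hF⟩ : ∃ F : A[X], mapAlgHom A.val F =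
      C (C h) * (C (X * (C x * X - 1)) + C (C h) * ((2 * C (C x * X) - 1) * GG x) +
        C (C x) * C (C h) * C (C h) * (GG x * GG x)) :=
    show _ ∈ LX A from by
      refine h_mul_mem_LX hA ((LX S).add_mem ((LX S).add_mem (C_mem_LX hy) ?_) ?_)
      · refine (LX S).mul_mem (C_mem_LX (hC _)) ((LX S).mul_mem ?_ (GG_mem hC hz hy))
        exact (LX S).sub_mem ((LX S).mul_mem (num_mem _).1 (C_mem_LX hz)) (LX S).one_mem
      · refine (LX S).mul_mem ((LX S).mul_mem ((LX S).mul_mem ?_ ?_) ?_)
          ((LX S).mul_mem (GG_mem hC hz hy) (GG_mem hC hz hy))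
        · exact C_mem_LX (hC _)
        · exact C_mem_LX (hC _)
        · exact C_mem_LX (hC _)
  refine ⟨F, ?_, hF⟩
  refine mem_HDStar_of (mapAlgHom A.val) (mapval_injective A) (DD K x h)
    (DD_mem hC hz hA hAS hder) (DD_lnd x h) s F ?_ ?_
  · rw [hs, map_sub, DD_X, Derivation.leibniz, DD_CC, DD_GG]
    simp only [smul_eq_mul, mul_zero, add_zero]
    ring
  · rw [hF]
    have hy : (C (X * (C x * X - 1)) : R[X][X]) = C X * (C (C x) * C X - 1) := by
      simp only [C_mul, C_sub, C_1]
    have hz : (C (C x * X) : R[X][X]) = C (C x) * C X := by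
      simp only [C_mul]
    have h2 : DD K x h (2 : R[X][X]) = 0 := by
      have := (DD K x h).map_natCast 2
      rwa [Nat.cast_ofNat] at this
    rw [hy, hz]
    simp only [Derivation.leibniz, map_add, map_sub, DD_CC, DD_CX, DD_GG, DD_one, h2,
      smul_eq_mul]
    ring

include hC hz hy in
theorem exists_bad (hA : ∀ f ∈ S, C h * f ∈ A) (hAS : A ≤ S)
    (hder : ∀ f ∈ S, QQ x * C (derivative f) ∈ LX S) (θ : R[X] →ₐ[K] K[X]) (hθX : θ X = X)
    (hθx : θ (C x) = 0) (hθh : θ (C h) = -1) : ∃ F : A[X], F ∈ HDStar K A[X] ∧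
    θ ((F.coeff 1 : A) : R[X]) ≠ 0 := by
  obtain ⟨F, hF, hF2⟩ := exists_mem hC hz hy hA hAS hder
  refine ⟨F, hF, ?_⟩
  have h1 : θ ((F.coeff 1 : A) : R[X]) = (mapAlgHom θ (mapAlgHom A.val F)).coeff 1 := by
    simp only [coe_mapAlgHom, coeff_map]
    rfl
  have hev : ∀ f : R[X], mapAlgHom θ (C f) = C (θ f) := by
    intro f; simp
  have hX2 : mapAlgHom θ (X : R[X][X]) = X := by simp
  have h2 : mapAlgHom θ (mapAlgHom A.val F) = -X := by
    rw [hF2]
    simp only [GG, bt, map_mul, map_add, map_sub, map_one, hev, hX2, hθX, hθx, hθh, C_0, C_neg,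
      C_1, C_mul, C_sub, map_ofNat]
    ring
  rw [h1, h2, coeff_neg, coeff_X_one]
  exact neg_ne_zero.mpr one_ne_zero

lemma hdstar_ne_top [CharZero K] [IsDomain R] (A : Subalgebra K R[X]) (χ0 χ1 : R[X] →ₐ[K] K)
    (hχ : ∀ a ∈ A, χ0 a = χ1 a) (e : R[X]) (he0 : χ0 e = 0) (he1 : χ1 e = 1)
    (hce : ∀ f ∈ A, χ0 f = 0 → ∀ i : ℕ, 1 * e ^ i * f ∈ A) : HDStar K A[X] ≠ ⊤ := by
  intro htop
  have h1 : (X : A[X]) ∈ HDStar K A[X] := by rw [htop]; trivial
  obtain ⟨k, hk⟩ := hdstar_const A χ0 χ1 hχ e 1 he0 he1 A.one_mem (map_one _) hce X h1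
  have h2 : resLine A χ0 (X : A[X]) = X := by simp [resLine]
  rw [h2] at hk
  have := congrArg (fun P : K[X] => P.coeff 1) hk
  simp at this

lemma cda_lnd (c : R) : IsLND (C c • (da : Derivation K R[X] R[X])) := by
  have key : ∀ (n : ℕ) (f : R[X]), (⇑(C c • (da : Derivation K R[X] R[X])))^[n] f =
      C c ^ n * derivative^[n] f := by
    intro n
    induction n with
    | zero => intro f; simp
    | succ n ih =>
      intro f
      rw [Function.iterate_succ_apply', ih, Function.iterate_succ_apply', Derivation.coe_smul,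
        Pi.smul_apply, da_apply, smul_eq_mul, derivative_mul, ← C_pow, derivative_C]
      simp only [C_pow]
      ring
  intro f
  refine ⟨f.natDegree + 1, ?_⟩
  rw [key, Polynomial.iterate_derivative_eq_zero (Nat.lt_succ_self _), mul_zero]

lemma exists_lnd (A : Subalgebra K R[X]) (c : R) (hc : ∀ f ∈ A, C c * derivative f ∈ A)
    (f₀ : R[X]) (hf₀ : f₀ ∈ A) (h0 : C c * derivative f₀ ≠ 0) :
    ∃ D : Derivation K A A, IsLND D ∧ D ≠ 0 := by
  have h : ∀ b : A, ∃ b' : A, A.val b' = (C c • (da : Derivation K R[X] R[X])) (A.val b) :=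
    fun b => ⟨⟨_, hc _ b.2⟩, rfl⟩
  refine ⟨res A.val Subtype.val_injective _ h, res_lnd A.val Subtype.val_injective _ h (cda_lnd c),
    ?_⟩
  intro hD
  have h1 := res_spec A.val Subtype.val_injective _ h ⟨f₀, hf₀⟩
  rw [hD] at h1
  exact h0 h1.symm

end line

end Pool.Agent.Q85.LND
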