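import Pool.Agent.Q85.LND.Base

/-!
The modified Derksen invariant of the cylinder over `S ⊆ R[a]`, where `S` contains `R`, `z = x a`,
`y = a (x a - 1)`, `w = a ^ 2 (x a - 1)` and is preserved by `x ∂/∂a`.
-/

set_option autoImplicit false
set_option linter.unusedSectionVars false
set_option linter.unusedSimpArgs false

open Polynomial

namespace Pool.Agent.Q85.LND

open Pool.Agent.H868R3

universe u

section typeA

variable {K R : Type u} [Field K] [CommRing R] [Algebra K R]

variable (K) in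
/-- `∂/∂u + g ∂/∂a` -/
noncomputable def EE (g : R[X][X]) : Derivation K R[X][X] R[X][X] :=
  du + g • mc da

lemma EE_C (g : R[X][X]) (f : R[X]) : EE K g (C f : R[X][X]) = g * C (derivative f) := by
  simp only [EE, Derivation.coe_add, Pi.add_apply, Derivation.coe_smul, Pi.smul_apply, mc_C, du_C,
    smul_eq_mul, zero_add]

lemma EE_X (g : R[X][X]) : EE K g (X : R[X][X]) = 1 := by
  simp only [EE, Derivation.coe_add, Pi.add_apply, Derivation.coe_smul, Pi.smul_apply, mc_X, du_X,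
    smul_eq_mul, mul_zero, add_zero]

lemma EE_CC (g : R[X][X]) (r : R) : EE K g (C (C r) : R[X][X]) = 0 := by
  rw [EE_C, derivative_C, C_0, mul_zero]

lemma EE_CX (g : R[X][X]) : EE K g (C X : R[X][X]) = g := by
  rw [EE_C, derivative_X, C_1, mul_one]

lemma mem_nilSub_of_apply {B : Type u} [CommRing B] [Algebra K B] (D : Derivation K B B) {b : B}
    (h : D b ∈ nilSub D) : b ∈ nilSub D := by
  obtain ⟨n, hn⟩ := h
  exact ⟨n + 1, by rw [Function.iterate_succ_apply]; exact hn⟩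

lemma EE_lnd (x : R) (g : R[X][X]) (hg : ∃ (n k : ℕ), g = C (C x) * ((n : R[X][X]) * X ^ k)) :
    IsLND (EE K g) := by
  have hCC : ∀ r : R, (C (C r) : R[X][X]) ∈ nilSub (EE K g) := fun r => ⟨1, EE_CC g r⟩
  have hX : (X : R[X][X]) ∈ nilSub (EE K g) := by
    apply mem_nilSub_of_apply
    rw [EE_X]
    exact (nilSub _).one_mem
  have hCX : (C X : R[X][X]) ∈ nilSub (EE K g) := by
    apply mem_nilSub_of_apply
    rw [EE_CX]
    obtain ⟨n, k, rfl⟩ := hg
    exact (nilSub _).mul_mem (hCC x) ((nilSub _).mul_mem ((nilSub _).natCast_mem n)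
      ((nilSub _).pow_mem hX k))
  have hC : ∀ f : R[X], (C f : R[X][X]) ∈ nilSub (EE K g) := by
    intro f
    induction f using Polynomial.induction_on' with
    | add p q hp hq => rw [C_add]; exact (nilSub _).add_mem hp hq
    | monomial n r =>
      rw [← C_mul_X_pow_eq_monomial, C_mul, C_pow]
      exact (nilSub _).mul_mem (hCC r) ((nilSub _).pow_mem hCX n)
  intro F
  change F ∈ nilSub (EE K g)
  induction F using Polynomial.induction_on' with
  | add p q hp hq => exact (nilSub _).add_mem hp hq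
  | monomial n f =>
    rw [← C_mul_X_pow_eq_monomial]
    exact (nilSub _).mul_mem (hC f) ((nilSub _).pow_mem hX n)

variable {S : Subalgebra K R[X]}

variable (S) in
/-- the modified Derksen invariant inside `R[a][u]` -/
noncomputable def HH : Subalgebra K R[X][X] := (HDStar K S[X]).map (mapAlgHom S.val)

lemma mem_HH {F : R[X][X]} {F' : S[X]} (h : F' ∈ HDStar K S[X]) (h2 : mapAlgHom S.val F' = F) :
    F ∈ HH S := Subalgebra.mem_map.2 ⟨F', h, h2⟩

lemma EE_mem {x : R} (hder : ∀ f ∈ S, C x * derivative f ∈ S) {g : R[X][X]}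
    (hg : ∃ (n k : ℕ), g = C (C x) * ((n : R[X][X]) * X ^ k)) (F : S[X]) : ∃ G : S[X],
    mapAlgHom S.val G = EE K g (mapAlgHom S.val F) := by
  change EE K g (mapAlgHom S.val F) ∈ LX S
  have hX : EE K g X ∈ LX S := by
    rw [EE_X]
    exact (LX S).one_mem
  induction F using Polynomial.induction_on' with
  | add p q hp hq =>
    rw [map_add, map_add]
    exact (LX S).add_mem hp hq
  | monomial n f =>
    have h1 : mapAlgHom S.val (monomial n f) = C (f : R[X]) * X ^ n := by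
      rw [coe_mapAlgHom, map_monomial, ← C_mul_X_pow_eq_monomial]
      rfl
    rw [h1, Derivation.leibniz, Derivation.leibniz_pow]
    refine (LX S).add_mem ?_ ?_
    · rw [smul_eq_mul]
      refine (LX S).mul_mem (C_mem_LX f.2) ?_
      refine (LX S).nsmul_mem ?_ n
      rw [smul_eq_mul]
      exact (LX S).mul_mem ((LX S).pow_mem X_mem_LX _) hX
    · rw [smul_eq_mul, EE_C]
      refine (LX S).mul_mem ((LX S).pow_mem X_mem_LX _) ?_
      obtain ⟨m, k, rfl⟩ := hg
      have : C (C x) * ((m : R[X][X]) * X ^ k) * C (derivative (f : R[X])) =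
          ((m : R[X][X]) * X ^ k) * C (C x * derivative (f : R[X])) := by
        rw [C_mul]; ring
      rw [this]
      exact (LX S).mul_mem ((LX S).mul_mem ((LX S).natCast_mem m) ((LX S).pow_mem X_mem_LX k))
        (C_mem_LX (hder _ f.2))

lemma exists_of_LX {F : R[X][X]} (hF : F ∈ LX S) : ∃ F' : S[X], mapAlgHom S.val F' = F := hF

lemma mem_HH_of {F : R[X][X]} (D : Derivation K R[X][X] R[X][X]) (hD : IsLND D)
    (hpres : ∀ b : S[X], ∃ c : S[X], mapAlgHom S.val c = D (mapAlgHom S.val b))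
    (hF : F ∈ LX S) (h0 : D F = 0) (s : S[X]) (hs : D (mapAlgHom S.val s) = 1) : F ∈ HH S := by
  obtain ⟨F', hF'⟩ := exists_of_LX hF
  refine mem_HH (F' := F') ?_ hF'
  have h2 : D (mapAlgHom S.val F') = 0 := by
    rw [hF', h0]
  exact mem_HDStar_of (mapAlgHom S.val) (mapval_injective S) D hpres hD s F' hs h2

lemma map_X_eq : mapAlgHom S.val (X : S[X]) = X := by simp

lemma mem_HH_of_EE {x : R} (hder : ∀ f ∈ S, C x * derivative f ∈ S) (g : R[X][X])
    (hg : ∃ (n k : ℕ), g = C (C x) * ((n : R[X][X]) * X ^ k)) {F : R[X][X]}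
    (hF : F ∈ LX S) (h0 : EE K g F = 0) : F ∈ HH S := by
  refine mem_HH_of (EE K g) (EE_lnd x g hg) (EE_mem hder hg) hF h0 X ?_
  rw [map_X_eq, EE_X]

lemma mem_HH_of_DD {x : R} (hC : ∀ r, C r ∈ S) (hz : C x * X ∈ S) (hy : X * (C x * X - 1) ∈ S)
    (hder : ∀ f ∈ S, QQ x * C (derivative f) ∈ LX S) (h : R) {F : R[X][X]}
    (hF : F ∈ LX S) (h0 : DD K x h F = 0) : F ∈ HH S := by
  have hA : ∀ f ∈ S, C h * f ∈ S := fun f hf => S.mul_mem (hC h) hf
  obtain ⟨s, hs⟩ := exists_of_LX (S := S) (F := X - C (C h) * GG x)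
    ((LX S).sub_mem X_mem_LX (h_mul_mem_LX hA (GG_mem hC hz hy)))
  refine mem_HH_of (DD K x h) (DD_lnd x h) (DD_mem hC hz hA le_rfl hder) hF h0 s ?_
  rw [hs, map_sub, DD_X, Derivation.leibniz, DD_CC, DD_GG]
  simp only [smul_eq_mul, mul_zero, add_zero]
  ring

lemma C_mem_HH {f : R[X]} (hf : f ∈ S) : C f ∈ HH S :=
  mem_HH (F' := C ⟨f, hf⟩) (C_mem_hdstar _) (by simp)

lemma eq_top_of_X_mem (h : (X : R[X][X]) ∈ HH S) : HDStar K S[X] = ⊤ := by
  obtain ⟨F, hF, hFX⟩ := Subalgebra.mem_map.1 h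
  have h1 : F = X := by
    apply mapval_injective S
    have : mapAlgHom S.val (X : S[X]) = X := by simp
    rw [this]
    exact hFX
  subst h1
  rw [eq_top_iff]
  intro G _
  induction G using Polynomial.induction_on' with
  | add p q hp hq => exact (HDStar K S[X]).add_mem (hp trivial) (hq trivial)
  | monomial n a =>
    rw [← C_mul_X_pow_eq_monomial]
    exact (HDStar K S[X]).mul_mem (C_mem_hdstar a) ((HDStar K S[X]).pow_mem hF n)

lemma der_two {B : Type u} [CommRing B] [Algebra K B] (D : Derivation K B B) :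
    D (2 : B) = 0 := by
  have := D.map_natCast 2
  rwa [Nat.cast_ofNat] at this

lemma der_one {B : Type u} [CommRing B] [Algebra K B] (D : Derivation K B B) :
    D (1 : B) = 0 := Derivation.map_one_eq_zero D

variable {x : R}

lemma g_ok1 (x : R) : ∃ (n k : ℕ), (C (C x) : R[X][X]) = C (C x) * ((n : R[X][X]) * X ^ k) :=
  ⟨1, 0, by simp⟩

lemma g_ok2 (x : R) : ∃ (n k : ℕ), (C (C x) * (2 * X) : R[X][X]) =
    C (C x) * ((n : R[X][X]) * X ^ k) :=
  ⟨2, 1, by simp⟩

lemma g_ok3 (x : R) : ∃ (n k : ℕ), (C (C x) * (3 * (X * X)) : R[X][X]) =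
    C (C x) * ((n : R[X][X]) * X ^ k) :=
  ⟨3, 2, by simp [pow_two]⟩

lemma g_ok4 (x : R) : ∃ (n k : ℕ), (C (C x) * (4 * (X * X * X)) : R[X][X]) =
    C (C x) * ((n : R[X][X]) * X ^ k) :=
  ⟨4, 3, by simp [pow_succ]⟩

section steps

variable (hC : ∀ r, C r ∈ S) (hz : C x * X ∈ S) (hy : X * (C x * X - 1) ∈ S)
  (hw : X ^ 2 * (C x * X - 1) ∈ S) (hder : ∀ f ∈ S, C x * derivative f ∈ S)
  (hder2 : ∀ f ∈ S, QQ x * C (derivative f) ∈ LX S)

lemma CC_mem_HH (hC : ∀ r, C r ∈ S) (r : R) : (C (C r) : R[X][X]) ∈ HH S := C_mem_HH (hC r)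

include hC hz hder in
lemma step_z (g v : R[X][X]) (hg : ∃ (n k : ℕ), g = C (C x) * ((n : R[X][X]) * X ^ k))
    (hv : v ∈ LX S) (hgv : EE K g v = C (C x) * g) : v ∈ HH S := by
  have h1 : C (C x * X) - v ∈ HH S := by
    apply mem_HH_of_EE hder g hg
    · exact (LX S).sub_mem (C_mem_LX hz) hv
    · rw [map_sub, hgv, EE_C]
      have : derivative (C x * X : R[X]) = C x := by simp
      rw [this]; ring
  have h2 := (HH S).sub_mem (C_mem_HH hz) h1
  rwa [sub_sub_cancel] at h2

include hC hz hder in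
lemma step_z1 : C (C x) * C (C x) * X ∈ HH S := by
  apply step_z hC hz hder (C (C x)) _ (g_ok1 x)
  · exact (LX S).mul_mem ((LX S).mul_mem (C_mem_LX (hC x)) (C_mem_LX (hC x))) X_mem_LX
  · simp only [Derivation.leibniz, EE_CC, EE_X, smul_eq_mul]
    ring

include hC hz hder in
lemma step_z2 : C (C x) * C (C x) * (X * X) ∈ HH S := by
  apply step_z hC hz hder (C (C x) * (2 * X)) _ (g_ok2 x)
  · exact (LX S).mul_mem ((LX S).mul_mem (C_mem_LX (hC x)) (C_mem_LX (hC x)))
      ((LX S).mul_mem X_mem_LX X_mem_LX)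
  · simp only [Derivation.leibniz, EE_CC, EE_X, smul_eq_mul]
    ring

include hC hz hder in
lemma step_z3 : C (C x) * C (C x) * (X * X * X) ∈ HH S := by
  apply step_z hC hz hder (C (C x) * (3 * (X * X))) _ (g_ok3 x)
  · exact (LX S).mul_mem ((LX S).mul_mem (C_mem_LX (hC x)) (C_mem_LX (hC x)))
      ((LX S).mul_mem ((LX S).mul_mem X_mem_LX X_mem_LX) X_mem_LX)
  · simp only [Derivation.leibniz, EE_CC, EE_X, smul_eq_mul]
    ring

include hC hz hder in
lemma step_z4 : C (C x) * C (C x) * (X * X * X * X) ∈ HH S := by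
  apply step_z hC hz hder (C (C x) * (4 * (X * X * X))) _ (g_ok4 x)
  · exact (LX S).mul_mem ((LX S).mul_mem (C_mem_LX (hC x)) (C_mem_LX (hC x)))
      ((LX S).mul_mem ((LX S).mul_mem ((LX S).mul_mem X_mem_LX X_mem_LX) X_mem_LX) X_mem_LX)
  · simp only [Derivation.leibniz, EE_CC, EE_X, smul_eq_mul]
    ring

include hC hz hy hder in
lemma step_y1 : C (C x) * (2 * C (C x * X) - 1) * X ∈ HH S := by
  have h1 : C (X * (C x * X - 1)) - C (C x) * (2 * C (C x * X) - 1) * X +
      C (C x) * C (C x) * C (C x) * (X * X) ∈ HH S := by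
    apply mem_HH_of_EE hder (C (C x)) (g_ok1 x)
    · refine (LX S).add_mem ((LX S).sub_mem (C_mem_LX hy) ?_) ?_
      · refine (LX S).mul_mem ((LX S).mul_mem (C_mem_LX (hC x)) ((LX S).sub_mem ?_ (LX S).one_mem))
          X_mem_LX
        exact (LX S).mul_mem (num_mem _).1 (C_mem_LX hz)
      · exact (LX S).mul_mem ((LX S).mul_mem ((LX S).mul_mem (C_mem_LX (hC x)) (C_mem_LX (hC x)))
          (C_mem_LX (hC x))) ((LX S).mul_mem X_mem_LX X_mem_LX)
    · simp only [C_mul, C_sub, C_1, Derivation.leibniz, map_add, map_sub, EE_CC, EE_CX, EE_X,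
        der_two, der_one, smul_eq_mul]
      ring
  have h2 : C (C x) * (2 * C (C x * X) - 1) * X = C (X * (C x * X - 1)) +
      C (C x) * (C (C x) * C (C x) * (X * X)) -
      (C (X * (C x * X - 1)) - C (C x) * (2 * C (C x * X) - 1) * X +
      C (C x) * C (C x) * C (C x) * (X * X)) := by ring
  rw [h2]
  exact (HH S).sub_mem ((HH S).add_mem (C_mem_HH hy)
    ((HH S).mul_mem (CC_mem_HH hC x) (step_z2 hC hz hder))) h1

include hC hz hy hder in
lemma step_y2 : C (C x) * (2 * C (C x * X) - 1) * (X * X) ∈ HH S := by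
  have h1 : C (X * (C x * X - 1)) - C (C x) * (2 * C (C x * X) - 1) * (X * X) +
      C (C x) * C (C x) * C (C x) * (X * X * X * X) ∈ HH S := by
    apply mem_HH_of_EE hder (C (C x) * (2 * X)) (g_ok2 x)
    · refine (LX S).add_mem ((LX S).sub_mem (C_mem_LX hy) ?_) ?_
      · refine (LX S).mul_mem ((LX S).mul_mem (C_mem_LX (hC x)) ((LX S).sub_mem ?_ (LX S).one_mem))
          ((LX S).mul_mem X_mem_LX X_mem_LX)
        exact (LX S).mul_mem (num_mem _).1 (C_mem_LX hz)
      · exact (LX S).mul_mem ((LX S).mul_mem ((LX S).mul_mem (C_mem_LX (hC x)) (C_mem_LX (hC x)))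
          (C_mem_LX (hC x))) ((LX S).mul_mem ((LX S).mul_mem ((LX S).mul_mem X_mem_LX X_mem_LX)
            X_mem_LX) X_mem_LX)
    · simp only [C_mul, C_sub, C_1, Derivation.leibniz, map_add, map_sub, EE_CC, EE_CX, EE_X,
        der_two, der_one, smul_eq_mul]
      ring
  have h2 : C (C x) * (2 * C (C x * X) - 1) * (X * X) = C (X * (C x * X - 1)) +
      C (C x) * (C (C x) * C (C x) * (X * X * X * X)) -
      (C (X * (C x * X - 1)) - C (C x) * (2 * C (C x * X) - 1) * (X * X) +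
      C (C x) * C (C x) * C (C x) * (X * X * X * X)) := by ring
  rw [h2]
  exact (HH S).sub_mem ((HH S).add_mem (C_mem_HH hy)
    ((HH S).mul_mem (CC_mem_HH hC x) (step_z4 hC hz hder))) h1

include hC hz hw hder in
lemma step_w : C (C x * X) * (3 * C (C x * X) - 2) * X ∈ HH S := by
  have hLz : (3 * C (C x * X) - 1 : R[X][X]) ∈ LX S :=
    (LX S).sub_mem ((LX S).mul_mem (num_mem _).2 (C_mem_LX hz)) (LX S).one_mem
  have h1 : C (X ^ 2 * (C x * X - 1)) - C (C x * X) * (3 * C (C x * X) - 2) * X +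
      C (C x) * C (C x) * (3 * C (C x * X) - 1) * (X * X) -
      C (C x) * C (C x) * (C (C x) * C (C x)) * (X * X * X) ∈ HH S := by
    apply mem_HH_of_EE hder (C (C x)) (g_ok1 x)
    · refine (LX S).sub_mem ((LX S).add_mem ((LX S).sub_mem (C_mem_LX hw) ?_) ?_) ?_
      · refine (LX S).mul_mem ((LX S).mul_mem (C_mem_LX hz) ((LX S).sub_mem ?_ (num_mem _).1))
          X_mem_LX
        exact (LX S).mul_mem (num_mem _).2 (C_mem_LX hz)
      · exact (LX S).mul_mem ((LX S).mul_mem ((LX S).mul_mem (C_mem_LX (hC x)) (C_mem_LX (hC x)))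
          hLz) ((LX S).mul_mem X_mem_LX X_mem_LX)
      · exact (LX S).mul_mem ((LX S).mul_mem ((LX S).mul_mem (C_mem_LX (hC x)) (C_mem_LX (hC x)))
          ((LX S).mul_mem (C_mem_LX (hC x)) (C_mem_LX (hC x))))
          ((LX S).mul_mem ((LX S).mul_mem X_mem_LX X_mem_LX) X_mem_LX)
    · simp only [C_mul, C_sub, C_1, C_pow, pow_two, Derivation.leibniz, map_add, map_sub, EE_CC,
        EE_CX, EE_X, der_two, der_three, der_one, smul_eq_mul]
      ring
  have h2 : C (C x * X) * (3 * C (C x * X) - 2) * X = C (X ^ 2 * (C x * X - 1)) +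
      (3 * C (C x * X) - 1) * (C (C x) * C (C x) * (X * X)) -
      (C (C x) * C (C x)) * (C (C x) * C (C x) * (X * X * X)) -
      (C (X ^ 2 * (C x * X - 1)) - C (C x * X) * (3 * C (C x * X) - 2) * X +
      C (C x) * C (C x) * (3 * C (C x * X) - 1) * (X * X) -
      C (C x) * C (C x) * (C (C x) * C (C x)) * (X * X * X)) := by ring
  rw [h2]
  refine (HH S).sub_mem ((HH S).sub_mem ((HH S).add_mem (C_mem_HH hw) ?_) ?_) h1
  · refine (HH S).mul_mem ?_ (step_z2 hC hz hder)
    exact (HH S).sub_mem ((HH S).mul_mem (num_mem _).2 (C_mem_HH hz)) (HH S).one_mem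
  · exact (HH S).mul_mem ((HH S).mul_mem (CC_mem_HH hC x) (CC_mem_HH hC x))
      (step_z3 hC hz hder)

include hC hz hy hder2 in
lemma step_xG : C (C x) * GG x ∈ HH S := by
  have hG := GG_mem hC hz hy
  have h1 : C (C x * X) + C (C x) * GG x ∈ HH S := by
    apply mem_HH_of_DD hC hz hy hder2 1
    · exact (LX S).add_mem (C_mem_LX hz) ((LX S).mul_mem (C_mem_LX (hC x)) hG)
    · simp only [C_mul, C_1, Derivation.leibniz, map_add, DD_CC, DD_CX, DD_GG, smul_eq_mul]
      ring
  have h2 := (HH S).sub_mem h1 (C_mem_HH hz)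
  rwa [add_sub_cancel_left] at h2

include hC hz hy hder2 in
lemma step_zG [CharZero K] : (2 * C (C x * X) - 1) * GG x ∈ HH S := by
  have hG := GG_mem hC hz hy
  have hL : (2 * C (C x * X) - 1 : R[X][X]) ∈ LX S :=
    (LX S).sub_mem ((LX S).mul_mem (num_mem _).1 (C_mem_LX hz)) (LX S).one_mem
  have h1 : C (X * (C x * X - 1)) + (2 * C (C x * X) - 1) * GG x + C (C x) * (GG x * GG x) ∈
      HH S := by
    apply mem_HH_of_DD hC hz hy hder2 1
    · exact (LX S).add_mem ((LX S).add_mem (C_mem_LX hy) ((LX S).mul_mem hL hG))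
        ((LX S).mul_mem (C_mem_LX (hC x)) ((LX S).mul_mem hG hG))
    · simp only [C_mul, C_sub, C_1, Derivation.leibniz, map_add, map_sub, DD_CC, DD_CX, DD_GG,
        der_two, der_one, smul_eq_mul]
      ring
  have h2 : C (X * (C x * X - 1)) - (2 * C (C x * X) - 1) * GG x + C (C x) * (GG x * GG x) ∈
      HH S := by
    apply mem_HH_of_DD hC hz hy hder2 (-1)
    · exact (LX S).add_mem ((LX S).sub_mem (C_mem_LX hy) ((LX S).mul_mem hL hG))
        ((LX S).mul_mem (C_mem_LX (hC x)) ((LX S).mul_mem hG hG))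
    · simp only [C_mul, C_sub, C_1, C_neg, Derivation.leibniz, map_add, map_sub, DD_CC, DD_CX,
        DD_GG, der_two, der_one, smul_eq_mul]
      ring
  have h3 := (HH S).smul_mem ((HH S).sub_mem h1 h2) (2⁻¹ : K)
  have h4 : (2⁻¹ : K) • (C (X * (C x * X - 1)) + (2 * C (C x * X) - 1) * GG x +
      C (C x) * (GG x * GG x) - (C (X * (C x * X - 1)) - (2 * C (C x * X) - 1) * GG x +
      C (C x) * (GG x * GG x))) = (2 * C (C x * X) - 1) * GG x := by
    have h5 : C (X * (C x * X - 1)) + (2 * C (C x * X) - 1) * GG x +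
      C (C x) * (GG x * GG x) - (C (X * (C x * X - 1)) - (2 * C (C x * X) - 1) * GG x +
      C (C x) * (GG x * GG x)) = (2 : K) • ((2 * C (C x * X) - 1) * GG x) := by
      rw [Algebra.smul_def, map_ofNat]
      ring
    rw [h5, smul_smul, inv_mul_cancel₀ two_ne_zero, one_smul]
  rwa [h4] at h3

/-- **The cylinder over `S` has the full modified Derksen invariant.** -/
theorem hdstar_eq_top [CharZero K] (hC : ∀ r, C r ∈ S) (hz : C x * X ∈ S)
    (hy : X * (C x * X - 1) ∈ S) (hw : X ^ 2 * (C x * X - 1) ∈ S)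
    (hder : ∀ f ∈ S, C x * derivative f ∈ S)
    (hder2 : ∀ f ∈ S, QQ x * C (derivative f) ∈ LX S) : HDStar K S[X] = ⊤ := by
  apply eq_top_of_X_mem
  have e1 := step_z1 hC hz hder
  have e2 := step_z2 hC hz hder
  have e3 := step_z3 hC hz hder
  have ey1 := step_y1 hC hz hy hder
  have ey2 := step_y2 hC hz hy hder
  have ew := step_w hC hz hw hder
  have exG := step_xG hC hz hy hder2
  have ezG := step_zG hC hz hy hder2
  have hx : (C (C x) : R[X][X]) ∈ HH S := CC_mem_HH hC x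
  have hz' : (C (C x * X) : R[X][X]) ∈ HH S := C_mem_HH hz
  have hy' : (C (X * (C x * X - 1)) : R[X][X]) ∈ HH S := C_mem_HH hy
  have h2 : (2 : R[X][X]) ∈ HH S := (num_mem _).1
  have h3 : (3 : R[X][X]) ∈ HH S := (num_mem _).2
  have h4 : (4 : R[X][X]) ∈ HH S := by
    have := (HH S).mul_mem h2 h2
    have e : (2 * 2 : R[X][X]) = 4 := by norm_num
    rwa [e] at this
  have h1 : (1 : R[X][X]) ∈ HH S := (HH S).one_mem
  have h2z : (2 * C (C x * X) - 1 : R[X][X]) ∈ HH S :=
    (HH S).sub_mem ((HH S).mul_mem h2 hz') h1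
  -- `G`
  have eG : GG x ∈ HH S := by
    have : GG x = (2 * C (C x * X) - 1) * ((2 * C (C x * X) - 1) * GG x) -
        4 * C (X * (C x * X - 1)) * (C (C x) * GG x) := by
      simp only [C_mul, C_sub, C_1]; ring
    rw [this]
    exact (HH S).sub_mem ((HH S).mul_mem h2z ezG) ((HH S).mul_mem ((HH S).mul_mem h4 hy') exG)
  -- `x u` and `x u ^ 2`
  have exu : C (C x) * X ∈ HH S := by
    have : C (C x) * X = (2 * C (C x * X) - 1) * (C (C x) * (2 * C (C x * X) - 1) * X) -
        4 * C (X * (C x * X - 1)) * (C (C x) * C (C x) * X) := by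
      simp only [C_mul, C_sub, C_1]; ring
    rw [this]
    exact (HH S).sub_mem ((HH S).mul_mem h2z ey1) ((HH S).mul_mem ((HH S).mul_mem h4 hy') e1)
  have exu2 : C (C x) * (X * X) ∈ HH S := by
    have : C (C x) * (X * X) = (2 * C (C x * X) - 1) * (C (C x) * (2 * C (C x * X) - 1) * (X * X)) -
        4 * C (X * (C x * X - 1)) * (C (C x) * C (C x) * (X * X)) := by
      simp only [C_mul, C_sub, C_1]; ring
    rw [this]
    exact (HH S).sub_mem ((HH S).mul_mem h2z ey2) ((HH S).mul_mem ((HH S).mul_mem h4 hy') e2)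
  -- `(2 z - 1) u`
  have ezu : (2 * C (C x * X) - 1) * X ∈ HH S := by
    have : (2 * C (C x * X) - 1) * X = C (C x * X) * (3 * C (C x * X) - 2) * X -
        (GG x - C (C x) * C (C x) * (X * X * X) - (3 * C (C x * X) - 2) * (C (C x) * (X * X)) -
          C (X * (C x * X - 1)) * (C (C x * X) - 1)) := by
      simp only [GG, bt, C_mul, C_sub, C_1]; ring
    rw [this]
    refine (HH S).sub_mem ew ((HH S).sub_mem ((HH S).sub_mem ((HH S).sub_mem eG e3) ?_) ?_)
    · exact (HH S).mul_mem ((HH S).sub_mem ((HH S).mul_mem h3 hz') h2) exu2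
    · exact (HH S).mul_mem hy' ((HH S).sub_mem hz' h1)
  have : (X : R[X][X]) = (2 * C (C x * X) - 1) * ((2 * C (C x * X) - 1) * X) -
        4 * C (X * (C x * X - 1)) * (C (C x) * X) := by
    simp only [C_mul, C_sub, C_1]; ring
  rw [this]
  exact (HH S).sub_mem ((HH S).mul_mem h2z ezu) ((HH S).mul_mem ((HH S).mul_mem h4 hy') exu)

end steps

end typeA

end Pool.Agent.Q85.LND
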